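import Pool.Agent.MP_5a3d27_ag.Final

/-!
# Rational maps of minimal degree from products of curves

For arbitrary curves `C₁, …, C_n` over `ℂ`, at least two of which are not rational, there is a
dominant rational map `C₁ × ⋯ × C_n ⇢ ℙⁿ` of degree `∏ gon(C_i)` which is not birationally
equivalent to a product of rational maps `C_i ⇢ ℙ¹`.
-/

open IntermediateField TensorProduct Pool.Agent.MP_5a3d27_ag

namespace Pool.Agent.Results.MP_5a3d27_ag.TwistedProduct

/-- For all curves `C₁, …, C_n`, at least two of which have gonality at least two, there is a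
dominant rational map `C₁ × ⋯ × C_n ⇢ ℙⁿ` of degree `∏ gon(C_i)` which is not birationally
equivalent to any product of rational maps `C_i ⇢ ℙ¹`. -/
theorem result (n : ℕ) (K : Fin n → Type) [∀ i, Field (K i)] [∀ i, Algebra ℂ (K i)]
    (hK : ∀ i, IsCurveField (K i)) (i₁ i₂ : Fin n) (hne : i₁ ≠ i₂)
    (h₁ : 2 ≤ gonality (K i₁)) (h₂ : 2 ≤ gonality (K i₂)) :
    ∃ φ : RationalMap K, degree φ = ∏ i, gonality (K i) ∧
      ∀ ψ : RationalMap K, IsProductMap ψ → ¬ BirationallyEquivalent φ ψ := by
  have haux := @exists_twisted n K _ _ hK (ProductField K) _ _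
    (inferInstance : Algebra (TensorRing K) (ProductField K))
    (inferInstance : IsScalarTower ℂ (TensorRing K) (ProductField K))
    (inferInstance : IsFractionRing (TensorRing K) (ProductField K)) i₁ i₂ hne h₁ h₂
  obtain ⟨t, htind, htdeg, htne⟩ := haux
  let φ : RationalMap K := (IntermediateField.val _).comp htind.aevalEquivField.toAlgHom
  have hφX : ∀ i, φ (coord i) = t i := by
    intro i
    change ((htind.aevalEquivField (algebraMap _ _ (MvPolynomial.X i)) :
      IntermediateField.adjoin ℂ (Set.range t)) : ProductField K) = t i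
    rw [AlgebraicIndependent.aevalEquivField_algebraMap_apply_coe, MvPolynomial.aeval_X]
  have hφ : φ.fieldRange = ⨆ i, ℂ⟮t i⟯ := by
    rw [fieldRange_eq]
    simp only [hφX]
  refine ⟨φ, ?_, ?_⟩
  · rw [degree, hφ]
    exact htdeg
  · rintro ψ hψ ⟨α, β, hαβ⟩
    choose g hg using hψ
    have hgtr : ∀ i, Transcendental ℂ (g i) := by
      intro i h
      have h2 : IsAlgebraic ℂ (pr K i (g i)) := h.algHom (prHom K i)
      rw [← hg i, isAlgebraic_algHom_iff ψ ψ.injective] at h2
      have h4 : IsAlgebraic ℂ (algebraMap (MvPolynomial (Fin n) ℂ)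
        (FractionRing (MvPolynomial (Fin n) ℂ)) (MvPolynomial.X i)) := h2
      rw [isAlgebraic_algebraMap_iff (IsFractionRing.injective _ _)] at h4
      exact (MvPolynomial.transcendental_X ℂ i) h4
    apply htne g hgtr α
    have h1 : (⨆ i, ℂ⟮pr K i (g i)⟯) = ψ.fieldRange := by
      rw [fieldRange_eq]
      refine iSup_congr fun i => ?_
      rw [hg i]
    refine Eq.trans (congrArg (IntermediateField.map (α : ProductField K →ₐ[ℂ] ProductField K)) h1) ?_
    rw [← hφ]
    ext x
    constructor
    · rintro ⟨y, ⟨z, rfl⟩, rfl⟩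
      exact ⟨β z, hαβ z⟩
    · rintro ⟨z, rfl⟩
      refine ⟨ψ (β.symm z), ⟨β.symm z, rfl⟩, ?_⟩
      have h3 := hαβ (β.symm z)
      rw [β.apply_symm_apply] at h3
      exact h3.symm

end Pool.Agent.Results.MP_5a3d27_ag.TwistedProduct
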